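import Pool.Agent.Run7.h538.TP.Stm

set_option autoImplicit false

/-!
# Project TP (helper538), piece KER: the double eigenvalues, by helper216
-/

open Finset Matrix

namespace Run7.h216.TP

open Run7.h538.TP

/-- the columns are orthonormal too -/
theorem cols {k : ℕ} (f : Fin k → Fin k → ℝ)
    (hf : ∀ i i', ∑ j, f i j * f i' j = if i = i' then 1 else 0) (j j' : Fin k) :
    ∑ i, f i j * f i j' = if j = j' then 1 else 0 := by
  have h1 : Matrix.of f * (Matrix.of f)ᵀ = 1 := by
    ext i i'
    rw [Matrix.mul_apply, Matrix.one_apply]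
    exact hf i i'
  have h2 := mul_eq_one_comm.1 h1
  have h3 := congrFun (congrFun h2 j) j'
  rw [Matrix.mul_apply, Matrix.one_apply] at h3
  exact h3

theorem L1 {k : ℕ} (f : Fin k → Fin k → ℝ)
    (hf : ∀ j j', ∑ i, f i j * f i j' = if j = j' then 1 else 0) (a : Fin k → ℝ) (q : Fin k) :
    ∑ i, (∑ l, a l * f i l) * f i q = a q := by
  simp only [sum_mul]
  rw [sum_comm]
  have h1 : ∀ l, ∑ i, a l * f i l * f i q = a l * if l = q then 1 else 0 := by
    intro l
    rw [← hf l q, mul_sum]
    exact sum_congr rfl fun i _ => by ring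
  simp only [h1]
  simp

theorem L2 {k : ℕ} (f : Fin k → Fin k → ℝ)
    (hf : ∀ j j', ∑ i, f i j * f i j' = if j = j' then 1 else 0) (a b : Fin k → ℝ) :
    ∑ i, (∑ l, a l * f i l) * (∑ m, f i m * b m) = ∑ m, a m * b m := by
  have h1 : ∀ i, (∑ l, a l * f i l) * (∑ m, f i m * b m) =
      ∑ m, (∑ l, a l * f i l) * f i m * b m := by
    intro i
    rw [mul_sum]
    exact sum_congr rfl fun m _ => by ring
  simp only [h1]
  rw [sum_comm]
  refine sum_congr rfl fun m _ => ?_
  rw [← sum_mul, L1 f hf]

section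
variable {K n : ℕ} (a0 : ℝ) (D r : Fin K → ℝ) (f : Fin K → Fin K → ℝ)
  (ν s : Fin n → ℝ) (g : Fin n → Fin n → ℝ) (w : Fin (K + 1) ⊕ Fin n → ℝ)

theorem row0 : (Bm a0 D r f ν s g *ᵥ w) (.inl 0) = a0 * w (.inl 0) +
    ∑ i : Fin K, (∑ l, r l * f i l) * w (.inl i.succ) + ∑ k, (∑ l, s l * g k l) * w (.inr k) := by
  simp [Bm, Matrix.mulVec, dotProduct, Fintype.sum_sum_type, Fin.sum_univ_succ]

theorem rowS (i : Fin K) : (Bm a0 D r f ν s g *ᵥ w) (.inl i.succ) =
    (∑ l, r l * f i l) * w (.inl 0) +
      ∑ j : Fin K, (∑ l, f i l * D l * f j l) * w (.inl j.succ) := by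
  simp [Bm, Matrix.mulVec, dotProduct, Fintype.sum_sum_type, Fin.sum_univ_succ]

theorem rowT (k : Fin n) : (Bm a0 D r f ν s g *ᵥ w) (.inr k) =
    (∑ l, s l * g k l) * w (.inl 0) + ∑ k', (∑ l, g k l * ν l * g k' l) * w (.inr k') := by
  simp [Bm, Matrix.mulVec, dotProduct, Fintype.sum_sum_type, Fin.sum_univ_succ]

end

/-- **KER** -/
theorem t_KER : S_KER := by
  intro K n a0 D r f ν s g q hf hg hD hν hrq hsec
  have hf2 := cols f hf
  have hg2 := cols g hg
  obtain ⟨h, hh⟩ : ∃ h : Fin K → ℝ, h = fun l => if l = q then 0 else r l / (D q - D l) := ⟨_, rfl⟩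
  obtain ⟨t, ht⟩ : ∃ t : Fin n → ℝ, t = fun l => s l / (D q - ν l) := ⟨_, rfl⟩
  have e1 : ∀ l, r l + D l * h l = D q * h l := by
    intro l
    by_cases hl : l = q
    · subst hl
      simp [hh, hrq]
    · have h0 : D q - D l ≠ 0 := sub_ne_zero.2 fun e => hl (hD e).symm
      simp only [hh, if_neg hl]
      field_simp
      ring
  have e2 : ∀ l, s l + ν l * t l = D q * t l := by
    intro l
    have h0 : D q - ν l ≠ 0 := sub_ne_zero.2 (hν l).symm
    simp only [ht]
    field_simp
    ring
  have e3 : a0 + ∑ l, r l * h l + ∑ l, s l * t l = D q := by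
    have h1 : ∑ l, r l * h l = ∑ l ∈ univ.erase q, r l ^ 2 / (D q - D l) := by
      rw [← add_sum_erase univ _ (mem_univ q)]
      have h2 : r q * h q = 0 := by rw [hrq, zero_mul]
      rw [h2, zero_add]
      refine sum_congr rfl fun l hl => ?_
      simp only [hh, if_neg (ne_of_mem_erase hl)]
      ring
    have h2 : ∑ l, s l * t l = ∑ l, s l ^ 2 / (D q - ν l) :=
      sum_congr rfl fun l _ => by simp only [ht]; ring
    rw [h1, h2, hsec]
  refine ⟨⟨Sum.elim (Fin.cases (motive := fun _ => ℝ) 0 fun i => f i q) (fun _ => 0),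
    Sum.elim (Fin.cases (motive := fun _ => ℝ) 1 fun i => ∑ l, f i l * h l)
      (fun k => ∑ l, g k l * t l), ?_, ?_, ?_⟩, ?_⟩
  · rw [LinearIndependent.pair_iff]
    intro α β hab
    have h1 := congrFun hab (.inl 0)
    simp at h1
    subst h1
    refine ⟨?_, rfl⟩
    have h2 : ∀ i : Fin K, α * f i q = 0 := by
      intro i
      have h3 := congrFun hab (.inl i.succ)
      simpa using h3
    have h4 : α * ∑ i, f i q * f i q = 0 := by
      rw [mul_sum]
      refine sum_eq_zero fun i _ => ?_
      rw [← mul_assoc, h2, zero_mul]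
    rw [hf2 q q, if_pos rfl, mul_one] at h4
    exact h4
  · funext x
    rcases x with x | k
    · refine Fin.cases ?_ (fun i => ?_) x
      · rw [row0]
        simp only [Sum.elim_inl, Sum.elim_inr, Fin.cases_zero, Fin.cases_succ, Pi.smul_apply,
          smul_eq_mul, mul_zero, sum_const_zero, zero_add, add_zero]
        rw [L1 f hf2, hrq]
      · rw [rowS]
        simp only [Sum.elim_inl, Fin.cases_zero, Fin.cases_succ, Pi.smul_apply,
          smul_eq_mul, mul_zero, zero_add]
        rw [L1 f hf2 (fun l => f i l * D l)]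
        ring
    · rw [rowT]
      simp
  · funext x
    rcases x with x | k
    · refine Fin.cases ?_ (fun i => ?_) x
      · rw [row0]
        simp only [Sum.elim_inl, Sum.elim_inr, Fin.cases_zero, Fin.cases_succ, Pi.smul_apply,
          smul_eq_mul, mul_one]
        rw [L2 f hf2, L2 g hg2, e3]
      · rw [rowS]
        simp only [Sum.elim_inl, Fin.cases_zero, Fin.cases_succ, Pi.smul_apply,
          smul_eq_mul, mul_one]
        rw [L2 f hf2 (fun l => f i l * D l), ← sum_add_distrib, mul_sum]
        refine sum_congr rfl fun l _ => ?_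
        linear_combination f i l * e1 l
    · rw [rowT]
      simp only [Sum.elim_inl, Sum.elim_inr, Fin.cases_zero, Pi.smul_apply,
        smul_eq_mul, mul_one]
      rw [L2 g hg2 (fun l => g k l * ν l), ← sum_add_distrib, mul_sum]
      refine sum_congr rfl fun l _ => ?_
      linear_combination g k l * e2 l
  · intro w hw
    have h1 : ∀ k, ∑ k', (∑ l, g k l * ν l * g k' l) * w k' = D q * w k := by
      intro k
      have h2 := congrFun hw k
      simpa [Bm, Matrix.mulVec, dotProduct] using h2
    obtain ⟨y, hy⟩ : ∃ y : Fin n → ℝ, y = fun l => ∑ k', g k' l * w k' := ⟨_, rfl⟩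
    have h3 : ∀ k, ∑ l, (ν l * y l) * g k l = D q * w k := by
      intro k
      rw [← h1 k]
      simp only [hy, sum_mul, mul_sum]
      rw [sum_comm]
      exact sum_congr rfl fun k' _ => sum_congr rfl fun l _ => by ring
    have h4 : ∀ m, ν m * y m = D q * y m := by
      intro m
      rw [← L1 g hg2 (fun l => ν l * y l) m]
      simp only [h3]
      simp only [hy, mul_sum]
      exact sum_congr rfl fun k _ => by ring
    have h5 : ∀ m, y m = 0 := by
      intro m
      have h6 : (ν m - D q) * y m = 0 := by rw [sub_mul, h4 m, sub_self]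
      rcases mul_eq_zero.1 h6 with h7 | h7
      · exact absurd (sub_eq_zero.1 h7) (hν m)
      · exact h7
    funext k
    have h8 : w k = ∑ m, g k m * y m := by
      simp only [hy, mul_sum]
      rw [sum_comm]
      have h9 : ∀ k', ∑ m, g k m * (g k' m * w k') = (if k = k' then 1 else 0) * w k' := by
        intro k'
        rw [← hg k k', sum_mul]
        exact sum_congr rfl fun m _ => by ring
      simp only [h9]
      simp
    rw [h8]
    simp [h5]

end Run7.h216.TP
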